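import Pool.Graph.R_seed8.Y512.Lit

set_option autoImplicit false

/-!
# Steep and shallow directions

`K` is a compact convex set and `e` a direction. A point `x` of `K` is *thin* if `x` is the only
point of `K` on the line `x + ℝ e`. Let the directions `S` illuminate all thin points, and let the
lines `x + ℝ e` of the other points enter the interior after a small move in one of the directions
of `U`. Then `K` is covered by `|S| + 2 |U|` translates of its interior: use the directions of `S`
and `ε u ± e`, `u ∈ U`, for a small `ε > 0`.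
-/

namespace Pool.Agent.H768.Sh

open Set Topology Pool.Agent.Y512

variable {E : Type*} [NormedAddCommGroup E] [NormedSpace ℝ E]

/-- the set of points that are illuminated by a direction is open -/
theorem isOpen_lit (K : Set E) (t : E) : IsOpen {x | Lit K t x} := by
  have : {x | Lit K t x} = ⋃ τ ∈ Ioi (0 : ℝ), (fun x => x + τ • t) ⁻¹' interior K := by
    ext x
    simp [Lit]
  rw [this]
  exact isOpen_biUnion fun τ _ => isOpen_interior.preimage (by fun_prop)

/-- positive combinations: if `x + t` is an interior point of `K` and `x, x + r` are in `K` then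
`a t + b r` illuminates `x` for all `a > 0`, `b ≥ 0` -/
theorem lit_combo {K : Set E} (hK : Convex ℝ K) {x t r : E} (hr : x + r ∈ K)
    (ht : x + t ∈ interior K) {a b : ℝ} (ha : 0 < a) (hb : 0 ≤ b) : Lit K (a • t + b • r) x := by
  have hab : 0 < a + b := by linarith
  refine ⟨1 / (a + b), by positivity, ?_⟩
  have h := hK.combo_interior_self_mem_interior ht hr (a := a / (a + b)) (b := b / (a + b))
    (by positivity) (by positivity) (by field_simp)
  have e : x + (1 / (a + b)) • (a • t + b • r) =
      (a / (a + b)) • (x + t) + (b / (a + b)) • (x + r) := by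
    have h1 : (a / (a + b)) • x + (b / (a + b)) • x = x := by
      rw [← add_smul, ← add_div, div_self hab.ne', one_smul]
    rw [smul_add, smul_smul, smul_smul, smul_add, smul_add]
    conv_lhs => rw [← h1]
    rw [one_div_mul_eq_div, one_div_mul_eq_div]
    abel
  rw [e]
  exact h

theorem lit_of_mul {K : Set E} {x t : E} {a : ℝ} (ha : 0 < a) (h : Lit K (a • t) x) :
    Lit K t x := by
  obtain ⟨τ, hτ, hi⟩ := h
  exact ⟨τ * a, by positivity, by rwa [mul_smul]⟩

/-- the steep directions `ε u ± e` illuminate more and more points that are not thin if `ε`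
decreases -/
theorem steep_mono {K : Set E} (hK : Convex ℝ K) {x u e : E} {s : ℝ} (hs : s ≠ 0)
    (hxs : x + s • e ∈ K) {ε ε' : ℝ} (h0 : 0 < ε') (hε : ε' ≤ ε)
    (h : Lit K (ε • u + e) x ∨ Lit K (ε • u - e) x) :
    Lit K (ε' • u + e) x ∨ Lit K (ε' • u - e) x := by
  have hεp : 0 < ε := h0.trans_le hε
  have hr : 1 ≤ ε / ε' := (one_le_div h0).2 hε
  -- the sign of the given direction
  obtain ⟨σ, hσ1, hσ2, τ, hτ, hi⟩ :
      ∃ σ : ℝ, -1 ≤ σ ∧ σ ≤ 1 ∧ ∃ τ : ℝ, 0 < τ ∧ x + τ • (ε • u + σ • e) ∈ interior K := by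
    rcases h with ⟨τ, hτ, hi⟩ | ⟨τ, hτ, hi⟩
    · exact ⟨1, by norm_num, le_rfl, τ, hτ, by simpa using hi⟩
    · exact ⟨-1, le_rfl, by norm_num, τ, hτ, by simpa [sub_eq_add_neg] using hi⟩
  rcases lt_or_gt_of_ne hs with hs | hs
  · right
    have hs' : 0 < -s := by linarith
    have := lit_combo hK hxs hi (a := ε' / (ε * τ)) (b := (1 + σ * (ε' / ε)) / (-s))
      (by positivity) (by
        apply div_nonneg _ hs'.le
        have : ε' / ε ≤ 1 := (div_le_one hεp).2 hε
        have h3 : 0 < ε' / ε := by positivity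
        nlinarith)
    convert this using 1
    rw [smul_smul, smul_add, smul_smul, smul_smul, smul_smul]
    have e1 : ε' / (ε * τ) * τ * ε = ε' := by field_simp
    have e2 : ε' / (ε * τ) * τ * σ = σ * (ε' / ε) := by field_simp
    have e3 : (1 + σ * (ε' / ε)) / -s * s = -(1 + σ * (ε' / ε)) := by
      rw [div_neg, neg_mul, div_mul_cancel₀ _ hs.ne]
    rw [e1, e2, e3, add_assoc, ← add_smul, sub_eq_add_neg]
    congr 1
    have : σ * (ε' / ε) + -(1 + σ * (ε' / ε)) = -1 := by ring
    rw [this, neg_one_smul]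
  · left
    have := lit_combo hK hxs hi (a := ε' / (ε * τ)) (b := (1 - σ * (ε' / ε)) / s)
      (by positivity) (by
        apply div_nonneg _ hs.le
        have : ε' / ε ≤ 1 := (div_le_one hεp).2 hε
        have h3 : 0 < ε' / ε := by positivity
        nlinarith)
    convert this using 1
    rw [smul_smul, smul_add, smul_smul, smul_smul, smul_smul]
    have e1 : ε' / (ε * τ) * τ * ε = ε' := by field_simp
    have e2 : ε' / (ε * τ) * τ * σ = σ * (ε' / ε) := by field_simp
    have e3 : (1 - σ * (ε' / ε)) / s * s = (1 - σ * (ε' / ε)) := by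
      rw [div_mul_cancel₀ _ hs.ne']
    rw [e1, e2, e3, add_assoc, ← add_smul]
    congr 1
    have : σ * (ε' / ε) + (1 - σ * (ε' / ε)) = 1 := by ring
    rw [this, one_smul]

/-- a point with room in the direction `e` and with a line `x + c u + ℝ e` (`c > 0`) that meets the
interior is illuminated by `ε u ± e` for small `ε` -/
theorem steep_exists {K : Set E} (hK : Convex ℝ K) {x u e : E} {s : ℝ} (hs : s ≠ 0)
    (hxs : x + s • e ∈ K) {c b : ℝ} (hc : 0 < c) (hi : x + (c • u + b • e) ∈ interior K) :
    ∃ ε : ℝ, 0 < ε ∧ (Lit K (ε • u + e) x ∨ Lit K (ε • u - e) x) := by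
  have hb : 0 < |b| + 1 := by positivity
  refine ⟨c / (|b| + 1), by positivity, ?_⟩
  rcases lt_or_gt_of_ne hs with hs | hs
  · right
    have hs' : 0 < -s := by linarith
    have := lit_combo hK hxs hi (a := 1 / (|b| + 1)) (b := (1 + b / (|b| + 1)) / (-s))
      (by positivity) (by
        apply div_nonneg _ hs'.le
        have : -1 ≤ b / (|b| + 1) := by
          rw [le_div_iff₀ hb]
          linarith [neg_abs_le b]
        linarith)
    convert this using 1
    rw [smul_add, smul_smul, smul_smul, smul_smul]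
    have e1 : 1 / (|b| + 1) * c = c / (|b| + 1) := by ring
    have e2 : 1 / (|b| + 1) * b = b / (|b| + 1) := by ring
    have e3 : (1 + b / (|b| + 1)) / -s * s = -(1 + b / (|b| + 1)) := by
      rw [div_neg, neg_mul, div_mul_cancel₀ _ hs.ne]
    rw [e1, e2, e3, add_assoc, ← add_smul, sub_eq_add_neg]
    congr 1
    have : b / (|b| + 1) + -(1 + b / (|b| + 1)) = -1 := by ring
    rw [this, neg_one_smul]
  · left
    have := lit_combo hK hxs hi (a := 1 / (|b| + 1)) (b := (1 - b / (|b| + 1)) / s)
      (by positivity) (by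
        apply div_nonneg _ hs.le
        have : b / (|b| + 1) ≤ 1 := by
          rw [div_le_one hb]
          linarith [le_abs_self b]
        linarith)
    convert this using 1
    rw [smul_add, smul_smul, smul_smul, smul_smul]
    have e1 : 1 / (|b| + 1) * c = c / (|b| + 1) := by ring
    have e2 : 1 / (|b| + 1) * b = b / (|b| + 1) := by ring
    have e3 : (1 - b / (|b| + 1)) / s * s = (1 - b / (|b| + 1)) := by
      rw [div_mul_cancel₀ _ hs.ne']
    rw [e1, e2, e3, add_assoc, ← add_smul]
    congr 1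
    have : b / (|b| + 1) + (1 - b / (|b| + 1)) = 1 := by ring
    rw [this, one_smul]

/-- **Steep and shallow directions.** -/
theorem cover_steep {K : Set E} (hK : Convex ℝ K) (hc : IsCompact K) (e : E) (S U : Finset E)
    (hthin : ∀ x ∈ K, (∀ s : ℝ, x + s • e ∈ K → s = 0) → ∃ t ∈ S, Lit K t x)
    (hthick : ∀ x ∈ K, (∃ s : ℝ, s ≠ 0 ∧ x + s • e ∈ K) → (∃ t ∈ S, Lit K t x) ∨
      ∃ u ∈ U, ∃ c b : ℝ, 0 < c ∧ x + (c • u + b • e) ∈ interior K) :
    ∃ T : Finset E, T.card ≤ S.card + 2 * U.card ∧
      K ⊆ ⋃ t ∈ T, (fun x => t + x) '' interior K := by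
  classical
  let ep : ℕ → ℝ := fun n => 1 / ((n : ℝ) + 1)
  have hep : ∀ n, 0 < ep n := fun n => by positivity
  let A : ℕ → Set E := fun n => {x | (∃ t ∈ S, Lit K t x) ∨
    ∃ u ∈ U, Lit K (ep n • u + e) x ∨ Lit K (ep n • u - e) x}
  have hopen : ∀ n, IsOpen (A n) := by
    intro n
    have : A n = (⋃ t ∈ S, {x | Lit K t x}) ∪
        ⋃ u ∈ U, ({x | Lit K (ep n • u + e) x} ∪ {x | Lit K (ep n • u - e) x}) := by
      ext x
      simp [A]
    rw [this]
    exact (isOpen_biUnion fun t _ => isOpen_lit K t).union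
      (isOpen_biUnion fun u _ => (isOpen_lit K _).union (isOpen_lit K _))
  have hmono : ∀ x ∈ K, ∀ n m : ℕ, n ≤ m → x ∈ A n → x ∈ A m := by
    rintro x hx n m hnm (h | ⟨u, hu, h⟩)
    · exact Or.inl h
    · by_cases hth : ∀ s : ℝ, x + s • e ∈ K → s = 0
      · exact Or.inl (hthin x hx hth)
      · push Not at hth
        obtain ⟨s, hs, hs0⟩ := hth
        exact Or.inr ⟨u, hu, steep_mono hK hs0 hs (hep m)
          (one_div_le_one_div_of_le (by positivity) (by exact_mod_cast Nat.succ_le_succ hnm)) h⟩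
  have hcov : K ⊆ ⋃ n, A n := by
    intro x hx
    rw [mem_iUnion]
    by_cases hth : ∀ s : ℝ, x + s • e ∈ K → s = 0
    · exact ⟨0, Or.inl (hthin x hx hth)⟩
    · push Not at hth
      obtain ⟨s, hs, hs0⟩ := hth
      rcases hthick x hx ⟨s, hs0, hs⟩ with h | ⟨u, hu, c, b, hc0, hi⟩
      · exact ⟨0, Or.inl h⟩
      · obtain ⟨ε, hε, h⟩ := steep_exists hK hs0 hs hc0 hi
        obtain ⟨n, hn⟩ := exists_nat_one_div_lt hε
        exact ⟨n, Or.inr ⟨u, hu, steep_mono hK hs0 hs (hep n) hn.le h⟩⟩
  obtain ⟨F, hF⟩ := hc.elim_finite_subcover A hopen hcov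
  let N := F.sup id
  have hall : ∀ x ∈ K, x ∈ A N := by
    intro x hx
    obtain ⟨n, hn, hxn⟩ : ∃ n ∈ F, x ∈ A n := by simpa using hF hx
    exact hmono x hx n N (Finset.le_sup (f := id) hn) hxn
  let D : Finset E := S ∪ (U.image (fun u => ep N • u + e) ∪ U.image (fun u => ep N • u - e))
  obtain ⟨T, hT, hTK⟩ := cover_of_lit hK hc D (by
    intro x hx
    rcases hall x hx with ⟨t, ht, h⟩ | ⟨u, hu, h | h⟩
    · exact ⟨t, Finset.mem_union_left _ ht, h⟩
    · exact ⟨_, Finset.mem_union_right _ (Finset.mem_union_left _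
        (Finset.mem_image_of_mem _ hu)), h⟩
    · exact ⟨_, Finset.mem_union_right _ (Finset.mem_union_right _
        (Finset.mem_image_of_mem _ hu)), h⟩)
  refine ⟨T, hT.trans ?_, hTK⟩
  calc D.card ≤ S.card + (U.image (fun u => ep N • u + e) ∪
        U.image (fun u => ep N • u - e)).card := Finset.card_union_le _ _
    _ ≤ S.card + ((U.image (fun u => ep N • u + e)).card +
        (U.image (fun u => ep N • u - e)).card) := by
          gcongr
          exact Finset.card_union_le _ _
    _ ≤ S.card + (U.card + U.card) :=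
          Nat.add_le_add_left (Nat.add_le_add Finset.card_image_le Finset.card_image_le) _
    _ = S.card + 2 * U.card := by ring

end Pool.Agent.H768.Sh
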