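import Pool.Agent.H768.Sh.Shadow

set_option autoImplicit false

/-!
# Bodies with a parallelotope or any polytope as a shadow
-/

namespace Pool.Agent.H768.Sh

open Set Topology Pool.Agent.Y512

variable {E F : Type*} [NormedAddCommGroup E] [NormedSpace ℝ E] [AddCommGroup F] [Module ℝ F]

/-- the kernel of a surjective map onto a space with one dimension less is a line -/
theorem exists_ker [FiniteDimensional ℝ E] [FiniteDimensional ℝ F] (π : E →ₗ[ℝ] F)
    (hπ : Function.Surjective π)
    (hd : Module.finrank ℝ E = Module.finrank ℝ F + 1) :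
    ∃ e : E, e ≠ 0 ∧ π e = 0 ∧ ∀ x, π x = 0 → ∃ s : ℝ, x = s • e := by
  have h1 := LinearMap.finrank_range_add_finrank_ker π
  rw [LinearMap.range_eq_top.2 hπ, finrank_top, hd] at h1
  have h2 : Module.finrank ℝ (LinearMap.ker π) = 1 := by omega
  obtain ⟨e, he0, he⟩ := finrank_eq_one_iff'.1 h2
  refine ⟨e, fun h => he0 (Subtype.ext h), e.2, fun x hx => ?_⟩
  obtain ⟨s, hs⟩ := he ⟨x, hx⟩
  exact ⟨s, by simpa using (congrArg Subtype.val hs).symm⟩

/-- a point of the polytope `conv V` whose face contains no vertex but `i` is the vertex `i` -/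
theorem eq_of_face {V : Finset F} {p : F} (hp : p ∈ convexHull ℝ (V : Set F)) {i : F} (hiV : i ∈ V)
    (hi : ∀ y ∈ V, y ≠ i → ¬ InFace (convexHull ℝ (V : Set F)) p y) : p = i := by
  classical
  have hp' := hp
  rw [Finset.convexHull_eq] at hp
  obtain ⟨w, hw0, hw1, hwp⟩ := hp
  have hz : ∀ y ∈ V, y ≠ i → w y = 0 := by
    intro y hy hyi
    by_contra hwy
    have hpos : 0 < w y := lt_of_le_of_ne (hw0 y hy) (Ne.symm hwy)
    apply hi y hy hyi
    have hle : w y ≤ 1 := by
      rw [← hw1]; exact Finset.single_le_sum (f := w) (fun z hz => hw0 z hz) hy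
    refine ⟨w y, hpos, hle, ?_⟩
    rcases hle.lt_or_eq with hlt | heq
    · refine ⟨(1 - w y)⁻¹ • ∑ z ∈ V.erase y, w z • z, ?_, ?_⟩
      · have h1 : ∑ z ∈ V.erase y, w z = 1 - w y := by
          rw [← hw1, ← Finset.add_sum_erase V w hy]; ring
        have hp1 : 0 < 1 - w y := by linarith
        have hcm := (V.erase y).centerMass_mem_convexHull (w := w) (z := id)
          (fun z hz => hw0 z (Finset.mem_of_mem_erase hz)) (by rw [h1]; exact hp1)
          (fun z hz => (Finset.mem_coe.2 (Finset.mem_of_mem_erase hz)))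
        rw [Finset.centerMass, h1] at hcm
        exact hcm
      · have hne : (1 - w y) ≠ 0 := by linarith
        rw [smul_smul, mul_inv_cancel₀ hne, one_smul, ← hwp, Finset.centerMass_eq_of_sum_1 _ _ hw1,
          ← Finset.add_sum_erase V _ hy]
        simp only [id]
        rw [add_comm]
    · refine ⟨i, subset_convexHull ℝ _ hiV, ?_⟩
      have h0 : ∀ z ∈ V, z ≠ y → w z = 0 := by
        intro z hz hzy
        have h2 : ∑ z ∈ V.erase y, w z = 0 := by
          have := Finset.add_sum_erase V w hy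
          linarith
        exact (Finset.sum_eq_zero_iff_of_nonneg (fun z hz => hw0 z (Finset.mem_of_mem_erase hz))).1
          h2 z (Finset.mem_erase.2 ⟨hzy, hz⟩)
      rw [← hwp, Finset.centerMass_eq_of_sum_1 _ _ hw1, Finset.sum_eq_single_of_mem y hy
        (fun z hz hzy => by rw [h0 z hz hzy, zero_smul]), heq]
      simp
  rw [← hwp, Finset.centerMass_eq_of_sum_1 _ _ hw1, Finset.sum_eq_single_of_mem i hiV
    (fun z hz' hzy => by rw [hz z hz' hzy, zero_smul])]
  have : w i = 1 := by
    rw [← hw1]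
    exact (Finset.sum_eq_single_of_mem i hiV (fun z hz' hzy => hz z hz' hzy)).symm
  rw [this, one_smul]
  rfl

/-- the colouring `c` of the vertices `V` of the polytope `conv V` is *proper*: no face that has
more than one point is monochromatic -/
def ProperCol {m : ℕ} (V : Finset F) (c : F → Fin m) : Prop :=
  ∀ p ∈ convexHull ℝ (V : Set F), p ∉ V → ∃ v ∈ V, ∃ w ∈ V, c v ≠ c w ∧
    InFace (convexHull ℝ (V : Set F)) p v ∧ InFace (convexHull ℝ (V : Set F)) p w

/-- every point lies in the face of some vertex; a point which is not a vertex has two of them -/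
theorem exists_face {V : Finset F} {p : F} (hp : p ∈ convexHull ℝ (V : Set F)) :
    ∃ v ∈ V, InFace (convexHull ℝ (V : Set F)) p v := by
  by_contra hno
  push Not at hno
  obtain ⟨i, hi⟩ : (V : Set F).Nonempty := convexHull_nonempty_iff.1 ⟨p, hp⟩
  have := eq_of_face hp hi (fun y hy _ => hno y hy)
  exact hno i hi ⟨1, one_pos, le_rfl, p, hp, by rw [this]; simp⟩

/-- if all colours are different the colouring is proper -/
theorem properCol_of_injOn {m : ℕ} {V : Finset F} {c : F → Fin m} (hc : InjOn c V) :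
    ProperCol V c := by
  intro p hp hpV
  obtain ⟨v, hv, hvf⟩ := exists_face hp
  by_contra hno
  push Not at hno
  apply hpV
  rw [eq_of_face hp hv fun y hy hyv hyf => hno v hv y hy (fun h => hyv (hc hy hv h.symm)) hvf hyf]
  exact hv

/-- **A polytope with properly coloured vertices as a shadow.** -/
theorem cover_polytope [FiniteDimensional ℝ E] [FiniteDimensional ℝ F] {K : Set E}
    (hK : Convex ℝ K) (hc : IsCompact K) (hint : (interior K).Nonempty) (π : E →ₗ[ℝ] F)
    (hπ : Function.Surjective π) (hd : Module.finrank ℝ E = Module.finrank ℝ F + 1)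
    (V : Finset F) (hVK : π '' K = convexHull ℝ (V : Set F)) {m : ℕ} (hm : 2 ≤ m)
    (c : F → Fin m) (hcol : ProperCol V c) :
    ∃ T : Finset E, m * T.card ≤ (3 * m - 2) * V.card ∧
      K ⊆ ⋃ t ∈ T, (fun x => t + x) '' interior K := by
  classical
  obtain ⟨e, he0, he, hker⟩ := exists_ker π hπ hd
  let v : V → F := fun i => i
  have hvK : ∀ i : V, v i ∈ π '' K := fun i => by
    rw [hVK]; exact subset_convexHull ℝ _ i.2
  let thick : Finset V := Finset.univ.filter fun i => ∃ x ∈ K, ∃ y ∈ K, π x = v i ∧ π y = v i ∧ x ≠ y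
  have hthick : ∀ i ∈ thick, ∃ x ∈ K, ∃ y ∈ K, π x = v i ∧ π y = v i ∧ x ≠ y := by
    intro i hi
    exact (Finset.mem_filter.1 hi).2
  have hthin : ∀ i ∉ thick, ∀ x ∈ K, ∀ y ∈ K, π x = v i → π y = v i → x = y := by
    intro i hi x hx y hy hxv hyv
    by_contra hxy
    exact hi (Finset.mem_filter.2 ⟨Finset.mem_univ _, x, hx, y, hy, hxv, hyv, hxy⟩)
  have h1 : ∀ p ∈ π '' K, ∃ i, InFace (π '' K) p (v i) := by
    intro p hp
    rw [hVK] at hp ⊢
    obtain ⟨w, hw, hwf⟩ := exists_face hp
    exact ⟨⟨w, hw⟩, hwf⟩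
  have hcard : Fintype.card V = V.card := by simp
  -- the most frequent colour of the vertices that are not thick
  have : Nonempty (Fin m) := ⟨⟨0, by omega⟩⟩
  obtain ⟨a, ha⟩ : ∃ a : Fin m, thickᶜ.card ≤ m * (thickᶜ.filter fun i => c (v i) = a).card := by
    by_contra hno
    push Not at hno
    have h2 := Finset.card_eq_sum_card_fiberwise (s := thickᶜ) (t := Finset.univ)
      (f := fun i => c (v i)) (fun i _ => Finset.mem_coe.2 (Finset.mem_univ _))
    have h3 : m * ∑ a : Fin m, (thickᶜ.filter fun i => c (v i) = a).card <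
        m * thickᶜ.card := by
      rw [Finset.mul_sum]
      calc ∑ a : Fin m, m * (thickᶜ.filter fun i => c (v i) = a).card
          < ∑ _a : Fin m, thickᶜ.card :=
            Finset.sum_lt_sum_of_nonempty Finset.univ_nonempty fun a _ => hno a
        _ = m * thickᶜ.card := by simp
    rw [← h2] at h3
    exact lt_irrefl _ h3
  let W : Finset V := thickᶜ.filter fun i => ¬ c (v i) = a
  have hW : (thickᶜ.filter fun i => c (v i) = a).card + W.card = thickᶜ.card :=
    Finset.card_filter_add_card_filter_not (s := thickᶜ) (fun i => c (v i) = a)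
  obtain ⟨T, hT, hTK⟩ := cover_shadow hK hc hint π he0 hker he v hvK h1 thick W hthick hthin (by
      intro p hp hpv
      rw [hVK] at hp ⊢
      obtain ⟨x, hx, y, hy, hxy, hxf, hyf⟩ := hcol p hp (fun h => hpv ⟨p, h⟩ rfl)
      have hone : ∀ z (hz : z ∈ V), c z ≠ a → (⟨z, hz⟩ : V) ∈ thick ∪ W := by
        intro z hz hza
        by_cases hzt : (⟨z, hz⟩ : V) ∈ thick
        · exact Finset.mem_union_left _ hzt
        · exact Finset.mem_union_right _ (Finset.mem_filter.2 ⟨Finset.mem_compl.2 hzt, hza⟩)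
      by_cases hxa : c x = a
      · exact ⟨⟨y, hy⟩, hone y hy (fun h => hxy (hxa.trans h.symm)), hyf⟩
      · exact ⟨⟨x, hx⟩, hone x hx hxa, hxf⟩)
  refine ⟨T, ?_, hTK⟩
  have hcc : thickᶜ.card = V.card - thick.card := by rw [Finset.card_compl, hcard]
  have hle : thick.card ≤ V.card := by rw [← hcard]; exact Finset.card_le_univ _
  rw [hcard] at hT
  obtain ⟨k, hk⟩ : ∃ k, m = k + 2 := ⟨m - 2, by omega⟩
  obtain ⟨q, hq⟩ : ∃ q, V.card = thick.card + q := ⟨V.card - thick.card, by omega⟩
  have hcq : thickᶜ.card = q := by omega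
  rw [hcq] at ha hW
  have e1 : T.card ≤ 2 * thick.card + q + 2 * W.card := by
    clear_value thick W
    omega
  have e2 : (3 * m - 2) = 3 * k + 4 := by omega
  rw [e2, hq]
  generalize (thickᶜ.filter fun i => c (v i) = a).card = r at ha hW
  generalize T.card = x at e1 ⊢
  generalize thick.card = y at e1 ⊢
  generalize W.card = z at e1 hW
  clear * - ha hW e1 hk
  subst hk
  nlinarith

/-- the vertices of the box `[a, b]` -/
def vtx {n : ℕ} (a b : Fin n → ℝ) (s : Finset (Fin n)) : Fin n → ℝ :=
  fun i => if i ∈ s then b i else a i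

theorem vtx_mem {n : ℕ} {a b : Fin n → ℝ} (hab : ∀ i, a i < b i) (s : Finset (Fin n)) :
    vtx a b s ∈ Icc a b := by
  constructor <;> intro i <;> simp only [vtx] <;> split_ifs
  · exact (hab i).le
  · exact le_rfl
  · exact le_rfl
  · exact (hab i).le

theorem inFace_box {n : ℕ} {a b : Fin n → ℝ} {p : Fin n → ℝ}
    (hp : p ∈ Icc a b) (s : Finset (Fin n)) (h1 : ∀ i ∈ s, a i < p i) (h2 : ∀ i ∉ s, p i < b i) :
    InFace (Icc a b) p (vtx a b s) := by
  have hl : ∀ᶠ l : ℝ in 𝓝[>] 0, ∀ i, (1 - l) * a i + l * vtx a b s i ≤ p i ∧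
      p i ≤ (1 - l) * b i + l * vtx a b s i := by
    rw [Filter.eventually_all]
    intro i
    have hc1 : ContinuousAt (fun l : ℝ => (1 - l) * a i + l * vtx a b s i) 0 := by fun_prop
    have hc2 : ContinuousAt (fun l : ℝ => (1 - l) * b i + l * vtx a b s i) 0 := by fun_prop
    by_cases his : i ∈ s
    · have hv : vtx a b s i = b i := by simp [vtx, his]
      have := hc1.eventually_lt (continuousAt_const (y := p i)) (by simpa using h1 i his)
      filter_upwards [nhdsWithin_le_nhds this] with l hl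
      refine ⟨hl.le, ?_⟩
      rw [hv]
      have := hp.2 i
      linarith
    · have hv : vtx a b s i = a i := by simp [vtx, his]
      have := (continuousAt_const (y := p i)).eventually_lt hc2 (by simpa using h2 i his)
      filter_upwards [nhdsWithin_le_nhds this] with l hl
      refine ⟨?_, hl.le⟩
      rw [hv]
      have := hp.1 i
      linarith
  have hlt : ∀ᶠ l : ℝ in 𝓝[>] 0, l < 1 := nhdsWithin_le_nhds (Iio_mem_nhds one_pos)
  obtain ⟨l, hl, hl1, hl0⟩ := (hl.and (hlt.and self_mem_nhdsWithin)).exists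
  have hl0 : 0 < l := hl0
  have hp1 : 0 < 1 - l := by linarith
  refine ⟨l, hl0, hl1.le, (1 - l)⁻¹ • (p - l • vtx a b s), ?_, ?_⟩
  · constructor <;> intro i <;> simp only [Pi.smul_apply, Pi.sub_apply, smul_eq_mul]
    · rw [← div_eq_inv_mul, le_div_iff₀ hp1]
      linarith [(hl i).1]
    · rw [← div_eq_inv_mul, div_le_iff₀ hp1]
      linarith [(hl i).2]
  · rw [smul_smul, mul_inv_cancel₀ hp1.ne', one_smul]
    abel

/-- each point of a box which is not a vertex has in its face vertices of both parities -/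
theorem parity_box {n : ℕ} {a b : Fin n → ℝ} (hab : ∀ i, a i < b i) {p : Fin n → ℝ}
    (hp : p ∈ Icc a b) (hpv : ∀ s, p ≠ vtx a b s) (r : Bool) :
    ∃ s : Finset (Fin n), decide (Even s.card) = r ∧ InFace (Icc a b) p (vtx a b s) := by
  classical
  -- an inner coordinate
  obtain ⟨j, hj1, hj2⟩ : ∃ j, a j < p j ∧ p j < b j := by
    by_contra hno
    push Not at hno
    apply hpv (Finset.univ.filter fun i => a i < p i)
    funext i
    simp only [vtx, Finset.mem_filter, Finset.mem_univ, true_and]
    split_ifs with h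
    · exact le_antisymm (hp.2 i) (hno i h)
    · exact le_antisymm (not_lt.1 h) (hp.1 i)
  let B : Finset (Fin n) := Finset.univ.filter fun i => p i = b i
  have hjB : j ∉ B := by
    simp only [B, Finset.mem_filter, Finset.mem_univ, true_and]
    exact hj2.ne
  have hB : InFace (Icc a b) p (vtx a b B) := by
    apply inFace_box hp
    · intro i hi
      rw [(Finset.mem_filter.1 hi).2]
      exact hab i
    · intro i hi
      refine lt_of_le_of_ne (hp.2 i) fun h => hi (Finset.mem_filter.2 ⟨Finset.mem_univ _, h⟩)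
  have hB' : InFace (Icc a b) p (vtx a b (insert j B)) := by
    apply inFace_box hp
    · intro i hi
      rcases Finset.mem_insert.1 hi with rfl | hi
      · exact hj1
      · rw [(Finset.mem_filter.1 hi).2]
        exact hab i
    · intro i hi
      have hi : i ∉ B := fun h => hi (Finset.mem_insert_of_mem h)
      refine lt_of_le_of_ne (hp.2 i) fun h => hi (Finset.mem_filter.2 ⟨Finset.mem_univ _, h⟩)
  by_cases h : decide (Even B.card) = r
  · exact ⟨B, h, hB⟩
  · refine ⟨insert j B, ?_, hB'⟩
    rw [Finset.card_insert_of_notMem hjB]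
    simp only [Nat.even_add_one, decide_not]
    cases r <;> simpa using h

/-- **A parallelotope as a shadow.** -/
theorem cover_box [FiniteDimensional ℝ E] {n : ℕ} {K : Set E}
    (hK : Convex ℝ K) (hc : IsCompact K) (hint : (interior K).Nonempty)
    (π : E →ₗ[ℝ] (Fin n → ℝ)) (hπ : Function.Surjective π)
    (hd : Module.finrank ℝ E = n + 1)
    (a b : Fin n → ℝ) (hab : ∀ i, a i < b i) (hVK : π '' K = Icc a b) :
    ∃ T : Finset E, T.card ≤ 2 ^ (n + 1) ∧ K ⊆ ⋃ t ∈ T, (fun x => t + x) '' interior K := by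
  classical
  obtain ⟨e, he0, he, hker⟩ := exists_ker π hπ (by rw [hd]; simp)
  let v : Finset (Fin n) → (Fin n → ℝ) := vtx a b
  have hvK : ∀ s, v s ∈ π '' K := fun s => by rw [hVK]; exact vtx_mem hab s
  have h1 : ∀ p ∈ π '' K, ∃ s, InFace (π '' K) p (v s) := by
    intro p hp
    by_cases hpv : ∀ s, p ≠ vtx a b s
    · rw [hVK] at hp ⊢
      obtain ⟨s, -, hs⟩ := parity_box hab hp hpv true
      exact ⟨s, hs⟩
    · push Not at hpv
      obtain ⟨s, hs⟩ := hpv
      exact ⟨s, 1, one_pos, le_rfl, p, hp, by rw [hs]; simp [v]⟩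
  let thick : Finset (Finset (Fin n)) :=
    Finset.univ.filter fun i => ∃ x ∈ K, ∃ y ∈ K, π x = v i ∧ π y = v i ∧ x ≠ y
  have hthick : ∀ i ∈ thick, ∃ x ∈ K, ∃ y ∈ K, π x = v i ∧ π y = v i ∧ x ≠ y := by
    intro i hi
    exact (Finset.mem_filter.1 hi).2
  have hthin : ∀ i ∉ thick, ∀ x ∈ K, ∀ y ∈ K, π x = v i → π y = v i → x = y := by
    intro i hi x hx y hy hxv hyv
    by_contra hxy
    exact hi (Finset.mem_filter.2 ⟨Finset.mem_univ _, x, hx, y, hy, hxv, hyv, hxy⟩)
  have hsplit := Finset.card_filter_add_card_filter_not (s := thickᶜ)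
    (fun s : Finset (Fin n) => Even s.card)
  -- the smaller parity class of the vertices that are not thick
  obtain ⟨r, hr⟩ : ∃ r : Bool, 2 * (thickᶜ.filter fun s => decide (Even s.card) = r).card ≤
      thickᶜ.card := by
    by_cases hle : (thickᶜ.filter fun s => Even s.card).card ≤
        (thickᶜ.filter fun s => ¬ Even s.card).card
    · refine ⟨true, ?_⟩
      simp only [decide_eq_true_eq]
      omega
    · refine ⟨false, ?_⟩
      simp only [decide_eq_false_iff_not]
      omega
  obtain ⟨T, hT, hTK⟩ := cover_shadow hK hc hint π he0 hker he v hvK h1 thick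
    (thickᶜ.filter fun s => decide (Even s.card) = r) hthick hthin (by
      intro p hp hpv
      rw [hVK] at hp ⊢
      obtain ⟨s, hs, hsf⟩ := parity_box hab hp hpv r
      refine ⟨s, ?_, hsf⟩
      by_cases hst : s ∈ thick
      · exact Finset.mem_union_left _ hst
      · exact Finset.mem_union_right _ (Finset.mem_filter.2 ⟨Finset.mem_compl.2 hst, hs⟩))
  refine ⟨T, hT.trans ?_, hTK⟩
  have hN : Fintype.card (Finset (Fin n)) = 2 ^ n := by simp
  have hle : thick.card ≤ 2 ^ n := by rw [← hN]; exact Finset.card_le_univ _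
  have hcc : thickᶜ.card = 2 ^ n - thick.card := by rw [Finset.card_compl, hN]
  rw [hN]
  rw [hcc] at hr
  have : 2 ^ (n + 1) = 2 * 2 ^ n := by ring
  omega

end Pool.Agent.H768.Sh
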