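import Pool.Agent.H768.Sh.Fib

set_option autoImplicit false

/-!
# Bodies with a polytope as a shadow

Let `π` be a linear map with a one-dimensional kernel and let the shadow `π K` be a polytope with
the vertices `v i`. A vertex is thick if more than one point of `K` lies above it. All points of `K`
are illuminated by: one direction for each vertex which is not thick, two steep directions for the
thick vertices, and two steep directions for some further vertices `W` such that each face whose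
vertices are all thin has a vertex in `W`.
-/

namespace Pool.Agent.H768.Sh

open Set Topology Pool.Agent.Y512

variable {E F : Type*} [NormedAddCommGroup E] [NormedSpace ℝ E] [AddCommGroup F] [Module ℝ F]

/-- `v` lies in the smallest face of `P` that contains `p`: `p = v`, or `p` is an inner point of a
segment of `P` that ends in `v` -/
def InFace (P : Set F) (p v : F) : Prop :=
  ∃ l : ℝ, 0 < l ∧ l ≤ 1 ∧ ∃ q ∈ P, p = (1 - l) • q + l • v

/-- **The general bound.** `i ∈ thick`: two different points of `K` lie above the vertex `v i`. -/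
theorem cover_shadow {ι : Type*} [Fintype ι] [DecidableEq ι] {K : Set E} (hK : Convex ℝ K)
    (hc : IsCompact K) (hint : (interior K).Nonempty) (π : E →ₗ[ℝ] F) {e : E} (he0 : e ≠ 0)
    (hker : ∀ x, π x = 0 → ∃ s : ℝ, x = s • e) (he : π e = 0) (v : ι → F)
    (hv : ∀ i, v i ∈ π '' K) (h1 : ∀ p ∈ π '' K, ∃ i, InFace (π '' K) p (v i))
    (thick W : Finset ι)
    (hthick : ∀ i ∈ thick, ∃ x ∈ K, ∃ y ∈ K, π x = v i ∧ π y = v i ∧ x ≠ y)
    (hthin : ∀ i ∉ thick, ∀ x ∈ K, ∀ y ∈ K, π x = v i → π y = v i → x = y)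
    (h2 : ∀ p ∈ π '' K, (∀ i, p ≠ v i) → ∃ i ∈ thick ∪ W, InFace (π '' K) p (v i)) :
    ∃ T : Finset E, T.card ≤ (Fintype.card ι - thick.card) + 2 * (thick.card + W.card) ∧
      K ⊆ ⋃ t ∈ T, (fun x => t + x) '' interior K := by
  classical
  obtain ⟨o, ho⟩ := hint
  choose X hXK hX using hv
  -- the position of a point with respect to a vertex of its face
  have key : ∀ x : E, ∀ i, InFace (π '' K) (π x) (v i) → ∃ l : ℝ, 0 < l ∧ l ≤ 1 ∧
      ∃ Q ∈ K, ∀ Y ∈ K, π Y = v i → ∃ s : ℝ, x + s • e = (1 - l) • Q + l • Y := by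
    rintro x i ⟨l, hl, hl1, q, ⟨Q, hQ, rfl⟩, hp⟩
    refine ⟨l, hl, hl1, Q, hQ, fun Y hY hYv => ?_⟩
    obtain ⟨s, hs⟩ := hker ((1 - l) • Q + l • Y - x) (by
      rw [map_sub, map_add, map_smul, map_smul, hYv, hp, sub_self])
    exact ⟨s, by rw [← hs]; abel⟩
  have hmem : ∀ Q ∈ K, ∀ Y ∈ K, ∀ l : ℝ, 0 < l → l ≤ 1 → (1 - l) • Q + l • Y ∈ K :=
    fun Q hQ Y hY l hl hl1 => hK hQ hY (by linarith) hl.le (by ring)
  have hmemi : ∀ Q ∈ K, ∀ l : ℝ, 0 < l → l ≤ 1 → (1 - l) • Q + l • o ∈ interior K :=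
    fun Q hQ l hl hl1 => hK.combo_self_interior_mem_interior hQ ho (by linarith) hl (by ring)
  let S : Finset E := thickᶜ.image fun i => o - X i
  let U : Finset E := (thick ∪ W).image fun i => o - X i
  have hA : ∀ x ∈ K, (∀ s : ℝ, x + s • e ∈ K → s = 0) → ∃ t ∈ S, Lit K t x := by
    -- thin points
    intro x hx hx1
    obtain ⟨i, hi⟩ := h1 (π x) ⟨x, hx, rfl⟩
    obtain ⟨l, hl, hl1, Q, hQ, hQY⟩ := key x i hi
    have hun' : ∀ Y ∈ K, π Y = v i → x = (1 - l) • Q + l • Y := by
      intro Y hY hYv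
      obtain ⟨s, hs⟩ := hQY Y hY hYv
      have : s = 0 := hx1 s (by rw [hs]; exact hmem Q hQ Y hY l hl hl1)
      rw [← hs, this, zero_smul, add_zero]
    have hnt : i ∉ thick := by
      intro hit
      obtain ⟨y, hy, z, hz, hyv, hzv, hyz⟩ := hthick i hit
      apply hyz
      have := (hun' y hy hyv).symm.trans (hun' z hz hzv)
      exact smul_right_injective E hl.ne' (add_left_cancel this)
    refine ⟨o - X i, Finset.mem_image_of_mem (fun i => o - X i) (Finset.mem_compl.2 hnt), l, hl,
      ?_⟩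
    have h3 := hmemi Q hQ l hl hl1
    rw [hun' (X i) (hXK i) (hX i)]
    convert h3 using 1
    rw [smul_sub]
    abel
  have hB : ∀ x ∈ K, (∃ s : ℝ, s ≠ 0 ∧ x + s • e ∈ K) → (∃ t ∈ S, Lit K t x) ∨
      ∃ u ∈ U, ∃ c b : ℝ, 0 < c ∧ x + (c • u + b • e) ∈ interior K := by
    -- the other points
    rintro x hx ⟨s, hs, hxs⟩
    right
    obtain ⟨i, hi, hif⟩ : ∃ i ∈ thick ∪ W, InFace (π '' K) (π x) (v i) := by
      by_cases hp : ∀ i, π x ≠ v i
      · exact h2 (π x) ⟨x, hx, rfl⟩ hp
      · push Not at hp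
        obtain ⟨i, hi⟩ := hp
        refine ⟨i, ?_, 1, one_pos, le_rfl, π x, ⟨x, hx, rfl⟩, by rw [hi]; simp⟩
        apply Finset.mem_union_left
        by_contra hnt
        have := hthin i hnt x hx (x + s • e) hxs hi (by rw [map_add, map_smul, he, hi]; simp)
        have h0 : s • e = 0 := by simpa using this
        rcases smul_eq_zero.1 h0 with h | h
        · exact hs h
        · exact he0 h
    obtain ⟨l, hl, hl1, Q, hQ, hQY⟩ := key x i hif
    obtain ⟨r, hr⟩ := hQY (X i) (hXK i) (hX i)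
    refine ⟨o - X i, Finset.mem_image_of_mem (fun i => o - X i) hi, l, r, hl, ?_⟩
    have h3 := hmemi Q hQ l hl hl1
    convert h3 using 1
    rw [smul_sub]
    have : x + (l • o - l • X i + r • e) = (x + r • e) + (l • o - l • X i) := by abel
    rw [this, hr]
    abel
  obtain ⟨T, hT, hTK⟩ := cover_steep hK hc e S U hA hB
  refine ⟨T, hT.trans ?_, hTK⟩
  have hS : S.card ≤ Fintype.card ι - thick.card := by
    have h := Finset.card_image_le (s := thickᶜ) (f := fun i => o - X i)
    rwa [Finset.card_compl] at h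
  have hU : U.card ≤ thick.card + W.card := by
    have h := Finset.card_image_le (s := thick ∪ W) (f := fun i => o - X i)
    exact h.trans (Finset.card_union_le _ _)
  clear_value S U
  clear hTK hT
  omega

end Pool.Agent.H768.Sh
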